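import Mathlib
import Pool.Agent.Y221.CF.Core

/-!
MP_4329d7_ag, Q1: tensor differentials on the varieties which are dominated by varieties given by
high powers.

Let `V` be an irreducible component, of dimension `w ≥ 1`, of a projective variety in `ℙⁿ` which is
given by sums of at most `s` powers of linear forms, or by forms with at most `s` monomials and
divisible exponents, the exponents being at least `N ≥ 4 w 10 ^ s (r + 1) ^ 7`. We consider all
projective varieties `X` with a dominant rational map `V ⇢ X` of degree at most `r`. No assumption
is made on the map (in particular it need not be a quotient by a group) and on the singularities.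

`K` and `L` are the function fields of `V` and `X`, `y` is the generic point of `V`. `HighPowers`,
`SubVar`, `IsComponent`, `GeneralType`, `Special` (no Bogomolov sheaf): `Pool/Agent/W602/GT`;
`TensorVanish` (no nonzero tensor differentials), `IsUnirational`: `Pool/Agent/W619`.
-/

set_option autoImplicit false
set_option maxHeartbeats 400000

namespace Pool.Agent.Results.MP_4329d7_ag.DominatedTensors

open Pool.Agent.W602.GT
open Pool.Agent.W619.TW (TensorVanish IsUnirational)

/-- Let `V`, `w`, `s`, `N`, `r` be as above, over an algebraically closed field of characteristic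
zero.

(1) Either `V` is rational, or there is a number `b ≥ 1`, which depends only on `V`, such that every
variety `X` with a dominant rational map `V ⇢ X` of degree at most `r` has a dominant rational map
to a variety of general type of dimension `b`; in particular it has a nonzero tensor differential.

(2) If `X` has no nonzero tensor differential then `X` is unirational, in particular rationally
connected. -/
theorem result {k : Type} [Field k] [IsAlgClosed k] [CharZero k] {n : ℕ} {ι : Type}
    {F : ι → MvPolynomial (Fin (n + 1)) k} {s N r w : ℕ}
    (hF : HighPowers s N F) (hw : 1 ≤ w) (hN : w * (4 * 10 ^ s * (r + 1) ^ 7) ≤ N)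
    {K : Type} [Field K] [Algebra k K] {y : Fin (n + 1) → K} (hy : SubVar F K w y)
    (hcomp : IsComponent F y) :
    ((∃ t : Fin w → K, AlgebraicIndependent k t ∧
        IntermediateField.adjoin k (Set.range t) = ⊤) ∨
      ∃ b : ℕ, 1 ≤ b ∧ b ≤ w ∧ ∀ (L : Type) [Field L] [Algebra k L] [Algebra L K]
        [IsScalarTower k L K] [FiniteDimensional L K], Module.finrank L K ≤ r →
        (∃ M : IntermediateField k L, GeneralType k M b) ∧ ¬ TensorVanish k L w) ∧
    (∀ (L : Type) [Field L] [Algebra k L] [Algebra L K] [IsScalarTower k L K]
      [FiniteDimensional L K], Module.finrank L K ≤ r → TensorVanish k L w →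
      IsUnirational k L w) := by
  obtain ⟨hN1, -, -, hN4⟩ := Pool.Agent.Y221.PB.nums (r := r) (s := s) (N := N) hw (le_refl 1)
    (by rw [one_mul]; exact hN)
  rw [one_mul] at hN1
  have hN0 : 1 ≤ N := (Pool.Agent.Y221.AB.one_le_NB _ s).trans hN1
  rcases Pool.Agent.Y221.CF.core_main hF hN0 hN1 hN4 hy hcomp with ⟨t, ht, htop⟩ | h
  · exact ⟨Or.inl ⟨t, ht, htop⟩, fun L _ _ _ _ _ _ _ =>
      Pool.Agent.TH466.QT.unirational_of_sub ht htop⟩
  · obtain ⟨b, hb1, hbw, h⟩ := h
    refine ⟨Or.inr ⟨b, hb1, hbw, fun L _ _ _ _ _ hr => ⟨(h L hr).1, (h L hr).2.1⟩⟩,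
      fun L _ _ _ _ _ hr hS => absurd hS (h L hr).2.1⟩

end Pool.Agent.Results.MP_4329d7_ag.DominatedTensors
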