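import Pool.Agent.Y192.KC.Mum

/-!
MP_4329d7_ag, Q1: varieties without holomorphic tensor differentials among the covers
`w j ^ e j = F j (t 0 ^ m, …, t n ^ m)` of arbitrary projective varieties, `m` large.

`NoTensors ℂ L d B`: the smooth projective varieties with function field `L`, of dimension `d`, have
no nonzero sections of `(Ω¹) ^ ⊗ q`, `1 ≤ q ≤ B`.
-/

set_option autoImplicit false

namespace Pool.Agent.Results.MP_4329d7_ag.KummerTensors

open Pool.Agent.W602.GT Pool.Agent.TH710.SP Pool.Agent.Y192.KC

/-- Let `Z` be any irreducible projective variety in `P^n`, not in a coordinate hyperplane, with the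
homogeneous prime ideal `I`, let `F 1, …, F r` be forms which do not vanish on `Z`, and let
`e 1, …, e r` be positive numbers (there is no condition on the singularities of `Z` and of the
divisors `F j = 0`). There is a number `m0` with the following property. Let `m ≥ m0` be divisible by
the `e j`, and let `X` be any irreducible component, of dimension `d`, of the projective variety
with the equations `f (t 0 ^ m, …, t n ^ m) = 0`, `f ∈ I`, and
`w j ^ e j = F j (t 0 ^ m, …, t n ^ m)` in the weighted projective space with the homogeneous
coordinates `t i` and `w j`; `L` is the function field of `X`, and `t`, `w` are the coordinates of its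
generic point. Then the following are equivalent:
(1) the smooth projective varieties birational to `X` have no nonzero holomorphic tensor
differentials of positive degree,
(2) `X` is special in the sense of Campana,
(3) `X` is rational: `L` is a field of rational functions of `d` variables,
(4) `Z` is the closure of an orbit of a subtorus of the torus of diagonal matrices, on which the
`F j` are products of monomials and `e j`-th powers.
In particular, (1) implies that `X` is rationally connected. -/
theorem result {n r : ℕ} (X : ZCov n r) (hG : X.G = 1) :
    ∃ m0 : ℕ, ∀ m, m0 ≤ m → (∀ j, X.e j ∣ m) →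
      ∀ (L : Type) [Field L] [Algebra ℂ L] (t : Fin (n + 1) → L) (w : Fin r → L),
      ZField X m L t w → ∀ d : ℕ, Algebra.trdeg ℂ L = d →
      [∀ B, NoTensors ℂ L d B, Special ℂ L d (fun _ => False),
        (∃ σ : Fin d → L, AlgebraicIndependent ℂ σ ∧
          IntermediateField.adjoin ℂ (Set.range σ) = ⊤), Toric X].TFAE :=
  Mum.mum_all X hG

end Pool.Agent.Results.MP_4329d7_ag.KummerTensors
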