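import Pool.Agent.Y216.SV.Not

/-!
MP_4329d7_ag, Q1: tensor differentials and rational connectedness for the smooth projective
varieties with a rational map to the variety `W` in `P^N` of the vectors `x` such that, for some
polynomial `H` of degree at most `n`, `x i ^ m = H (a i)` for all `i` (for instance, the vectors
whose squares are the values of a polynomial of degree at most `n` at the `a i`).

`K` is the function field of the smooth projective variety `X`, `w` its dimension, and
`NoTensors k K w B` says that the holomorphic sections of `(Ω¹) ^ ⊗ r` on `X` are zero for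
`1 ≤ r ≤ B`; `∀ B, NoTensors k K w B` is the hypothesis of Q1. The rational map `X ⇢ W` is given by
its homogeneous coordinates `b 0, ..., b N` in `K`; `coords k b` is the function field of its image,
`b` the generic point of the image.
-/

set_option autoImplicit false

namespace Pool.Agent.Results.MP_4329d7_ag.PowerValueTensors

open Pool.Agent.W602.GT Pool.Agent.TH710.SP Pool.Agent.TH710.WH Pool.Agent.Y190.BV
  Pool.Agent.Y216.SV

/-- Let `k` be an algebraically closed field of characteristic zero (for instance `ℂ`),
`a 0, ..., a N` distinct elements of `k`, `m ≥ 2` and `4 n + (n + 1) ^ 2 < 2 (N + 1)`. Let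
`X` be a smooth projective variety of dimension `w` over `k` with function field `K`, and
`b = (b 0 : ... : b N)` a rational map from `X` to `P^N` such that for some polynomial `H` of degree
at most `n` over `K` we have `b i ^ m = H (a i)` for all `i`.

(1) If `X` has no nonzero holomorphic tensor differentials of positive degree then the image of `b`
is contained in a linear subspace of dimension at most `n / m` of `P^N` which is contained in `W`.

(2) Let `b` be birational onto its image. If `X` is rationally connected then its image is contained
in such a linear subspace. If `n / m < w + 1`, in particular if `w ≥ n / m`, the following are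
equivalent: `X` has no nonzero holomorphic tensor differentials of positive degree; `X` is
rationally connected; `X` is unirational; `X` is rational; the image of `b` is a linear subspace of
`P^N`. -/
theorem result {k : Type} [Field k] [IsAlgClosed k] [CharZero k] {N n m : ℕ} (hm : 2 ≤ m)
    (hN : 4 * n + (n + 1) ^ 2 < 2 * (N + 1)) {a : Fin (N + 1) → k}
    (ha : Function.Injective a) {K : Type} [Field K] [Algebra k K] {w : ℕ}
    (hw : Algebra.trdeg k K = w) {b : Fin (N + 1) → K} (hb0 : b ≠ 0)
    {H : Polynomial K} (hH : H.natDegree ≤ n)
    (hb : ∀ i, b i ^ m = H.eval (algebraMap k K (a i))) :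
    ((∀ B, NoTensors k K w B) → ∃ e, e * m ≤ n ∧ InLinearSpace k a n m e b) ∧
    (coords k b = ⊤ →
      (RationallyConnected k b → ∃ e, e * m ≤ n ∧ w ≤ e ∧ InLinearSpace k a n m e b) ∧
      (n < (w + 1) * m → [∀ B, NoTensors k K w B, RationallyConnected k b, Unirational k b,
        PurelyTranscendental k K, IsLinear k b].TFAE)) := by
  have hb' : ∀ l : Rel a n, val b (buchi a n m l) = 0 :=
    mem_of_poly a n m b H hH fun i => (hb i).symm
  refine ⟨fun h => ?_, fun h => ⟨fun hc => (inLinear_of_rc hm hN ha ⟨hb0, hb', h, hw⟩ hc).1,
    fun hnw => tensors_tfae' hm hN ha ⟨hb0, hb', h, hw⟩ hnw⟩⟩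
  obtain ⟨q, c, G0, ζ, hq, hc, hG0, hdeg, hζ, hy⟩ :=
    hull_of_special hm hN ha hw (special_of_noTensors h) hb0 hb'
  exact ⟨q.natDegree, by omega, inLinear_of_str hc hdeg hζ hy⟩

end Pool.Agent.Results.MP_4329d7_ag.PowerValueTensors
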