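import Pool.Agent.Y191.TensMain

/-!
# Varieties without tensor differentials and hyperplanes with small multiplicities

Let `X` be a smooth projective variety and `X ⇢ P^n` a rational map whose image, any subvariety of
`P^n`, has dimension `p ≥ 1`; the fibres are arbitrary. Let `ℓ i = 0`, `i < q`, be hyperplanes in
general position, such that the points `ℓ i` impose independent conditions on the forms of degree
`d`, with weights `wt i` in `[0, 1]` whose sum is at least `(p + 1) γ`, `γ = (n - p + d).choose (n - p)`.
For a prime divisor `P` of `X` let `e i` be the multiplicity of the hyperplane `ℓ i = 0` at `P` (for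
the divisors without fixed component which the map defines).

The theorem: if `H⁰ (X, (Ω¹) ^ ⊗ m) = 0` for all `m ≥ 1` then `X` has a prime divisor `P` such that
`∑ i, (1 - wt i) e i < min (#{i | e i ≠ 0}) γ`. In other words: if all multiplicities are large enough
(for the weights `1 - 1 / m` it is enough that they are all `0` or at least `m`, and `m = 2` is
allowed if there are many hyperplanes) then `X` has a nonzero holomorphic tensor differential, so
`X` is not rationally connected, and Mumford's problem (Q1) has a positive answer for `X`.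

The tensor differential is a section of `(Ω^p) ^ ⊗ M`, a power of the line subsheaf given by the
`p`-forms of the image; it is a determinant built from the forms of degree `d + 1` which vanish at
the points `ℓ i` (see `Pool.Agent.Y191`, files `Sym`, `Om`, `Loc`, `Span`, `Form`, `Base`, `BaseForm`,
`BaseFin`, `Sec`, `Tens`).

The function-field language of the starting repository is used. `K` is the function field of `X`, the
coordinates of the map are `b 0, ..., b n`; the prime divisors of `X` are places `P` of `K` (`Place`,
`Divisorial`), `P.ord` is the order along `P`, and `X` is given by the set of its prime divisors. A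
tensor differential of degree `m` is a `K`-multilinear function of `m` rational vector fields
(derivations of `K`); it is holomorphic if its values on vector fields which are regular at `P` are
regular at `P`, for all prime divisors `P` of `X`.
-/

set_option autoImplicit false

open FF MvPolynomial Pool.Agent.W602.GT Pool.Agent.Y191

namespace Pool.Agent.Results.MP_4329d7_ag.SmallMultiplicityTensors

/-- `ω` is a holomorphic tensor differential of degree `m` on `X`, a smooth projective variety of
dimension `M` which is given by the set of its prime divisors: a section of `(Ω¹) ^ ⊗ m`. -/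
def IsHolomorphic {K : Type} [Field K] [Algebra ℂ K] (M : ℕ) (X : Set (Place ℂ K)) {m : ℕ}
    (ω : MultilinearMap K (fun _ : Fin m => Derivation ℂ K K) K) : Prop :=
  ∀ P ∈ X, Divisorial M P → ∀ D : Fin m → Derivation ℂ K K, (∀ j, DerReg P (D j)) → P.Reg (ω D)

/-- `H⁰ (X, (Ω¹) ^ ⊗ m) = 0` for all `m ≥ 1`. -/
def NoTensors {K : Type} [Field K] [Algebra ℂ K] (M : ℕ) (X : Set (Place ℂ K)) : Prop :=
  ∀ m : ℕ, 1 ≤ m → ∀ ω : MultilinearMap K (fun _ : Fin m => Derivation ℂ K K) K,
    IsHolomorphic M X ω → ω = 0

/-- (1) Let `K` be the function field of a smooth projective variety `X` of dimension `M` without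
holomorphic tensor differentials of positive degree, with a rational map to `P^n` whose image has
dimension `p ≥ 1` and is not contained in one of the hyperplanes `ℓ i = 0`, which are in general
position and impose independent conditions on the forms of degree `d`. If the sum of the weights
`wt i` is at least `(p + 1) * γ`, `γ = (n - p + d).choose (n - p)`, then there is a prime divisor `P`
of `X` such that the multiplicities `e i` of the hyperplanes at `P` satisfy
`∑ i, (1 - wt i) * e i < min (#{i | e i ≠ 0}) γ`.

(2) Let `m ≥ 2`, `2 * n * m ≤ Q * (m - 1)` and `(n + Q).choose n < q`. For `q` general hyperplanes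
(some polynomial `Ψ` does not vanish at the coefficients) the following holds: if `X` is a smooth
projective variety without holomorphic tensor differentials of positive degree and `X ⇢ P^n` a
rational map whose image is not a point and not contained in one of the hyperplanes, then at some
prime divisor of `X` the multiplicity of one of the hyperplanes is positive and less than `m`. -/
theorem result {n q : ℕ} (hn : 1 ≤ n) :
    (∀ (M d p : ℕ), 0 < d → ∀ ℓ : Fin q → Fin (n + 1) → ℂ, Independent d ℓ → GeneralPosition ℓ →
      n + 1 ≤ q → ∀ (K : Type) [Field K] [Algebra ℂ K] (b : Fin (n + 1) → K),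
      (∀ i, lf (ℓ i) b ≠ 0) → (∃ j, b j ≠ 0) → 1 ≤ p → Algebra.trdeg ℂ (RF ℂ b) = p →
      ∀ wt : Fin q → ℚ, (∀ i, 0 ≤ wt i ∧ wt i ≤ 1) →
      (((p + 1) * (n - p + d).choose (n - p) : ℕ) : ℚ) ≤ ∑ i, wt i →
      ∀ X : Set (Place ℂ K), NoTensors M X →
      ∃ P ∈ X, Divisorial M P ∧ ∃ (c : ℤ) (e : Fin q → ℕ), OrdData P ℓ b c e ∧
        ∑ i, (1 - wt i) * e i <
          ((min (Finset.univ.filter fun i => e i ≠ 0).card
            ((n - p + d).choose (n - p)) : ℕ) : ℚ)) ∧
    ∀ m Q : ℕ, 2 ≤ m → 2 * n * m ≤ Q * (m - 1) → (n + Q).choose n < q →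
      ∃ Ψ : MvPolynomial (Fin q × Fin (n + 1)) ℂ, Ψ ≠ 0 ∧
        ∀ ℓ : Fin q → Fin (n + 1) → ℂ, eval (fun x => ℓ x.1 x.2) Ψ ≠ 0 →
        ∀ (K : Type) [Field K] [Algebra ℂ K] (M : ℕ) (b : Fin (n + 1) → K),
        Algebra.trdeg ℂ K = M → (∀ i, lf (ℓ i) b ≠ 0) →
        (∃ i j, b j ≠ 0 ∧ ∀ c : ℂ, b i ≠ c • b j) → ∀ X : Set (Place ℂ K), NoTensors M X →
        ∃ P ∈ X, Divisorial M P ∧ ∃ (c : ℤ) (e : Fin q → ℕ), OrdData P ℓ b c e ∧
          ∃ i, 0 < e i ∧ e i < m :=
  ⟨fun _ _ _ hd _ hI hg hq _ _ _ _ hl hb hp1 htr _ hwt hlt _ hX =>
    tens_place hd hI hg hq hl hb hp1 htr (fun i => (hwt i).1) (fun i => (hwt i).2) hlt hX,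
  fun _ _ hm hQ hq => general_tens hn hm hQ hq⟩

end Pool.Agent.Results.MP_4329d7_ag.SmallMultiplicityTensors
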